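import Pool.Agent.R80.GT.Main

/-!
# MP_e8a478_co: unique coupleability with an independent coupling (positive answer to Q1)
-/

open MeasureTheory ProbabilityTheory
open Pool.Agent.R130.Theon (Str unionTheory indepCoupling)
open Pool.Agent.R80.GT (IsLimit UniquelyCoupleable)

namespace Pool.Agent.Results.MP_e8a478_co.IndependentCoupling

/-- If `φ₁, ψ` are uniquely coupleable and `φ₂, ψ` are uniquely coupleable, then `φ₁ ⊗ φ₂` is a
limit object of `T₁ ∪ T₂`, and it is uniquely coupleable with `ψ`. -/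
theorem result (L₁ L₂ L' : FirstOrder.Language.{0, 0}) [L₁.IsRelational] [L₂.IsRelational]
    [L'.IsRelational] [Finite (Σ n, L₁.Relations n)] [Finite (Σ n, L₂.Relations n)]
    [Finite (Σ n, L'.Relations n)] (T₁ : L₁.Theory) (T₂ : L₂.Theory) (T' : L'.Theory)
    [T₁.IsUniversal] [T₂.IsUniversal] [T'.IsUniversal] (φ₁ : Measure (Str L₁))
    (φ₂ : Measure (Str L₂)) (ψ : Measure (Str L')) (h₁ : IsLimit T₁ φ₁) (h₂ : IsLimit T₂ φ₂)
    (hψ : IsLimit T' ψ) (u₁ : UniquelyCoupleable T₁ T' φ₁ ψ)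
    (u₂ : UniquelyCoupleable T₂ T' φ₂ ψ) :
    IsLimit (unionTheory T₁ T₂) (indepCoupling φ₁ φ₂) ∧
      UniquelyCoupleable (unionTheory T₁ T₂) T' (indepCoupling φ₁ φ₂) ψ :=
  Pool.Agent.R80.GT.uniquelyCoupleable_indepCoupling T₁ T₂ T' φ₁ φ₂ ψ h₁ h₂ hψ u₁ u₂

end Pool.Agent.Results.MP_e8a478_co.IndependentCoupling
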